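import Pool.Agent.TH958.T2.Ind
import Pool.Agent.W309.RK.Exist

/-!
The family `y ^ 2 = x (x - f ^ (q + 1) - h ^ ((q + 1) / 2)) (x - f ^ (q + 1) + h ^ ((q + 1) / 2))`.
-/

set_option autoImplicit false
set_option linter.all false

open Polynomial IsDedekindDomain WeierstrassCurve WeierstrassCurve.Affine
open scoped Classical

namespace Pool.Agent.TH958.T2

open Pool.Agent.TH115.GD

/-- `y ^ 2 = x (x - a) (x - b)`, `a = f ^ (q + 1) + h ^ ((q + 1) / 2)`,
`b = f ^ (q + 1) - h ^ ((q + 1) / 2)`. -/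
noncomputable def curve {k : Type} [Field k] (K : Type) [Field K] [Algebra k[X] K] (q : ℕ)
    (f h : k[X]) : WeierstrassCurve K :=
  crv (algebraMap k[X] K (f ^ (q + 1) + h ^ ((q + 1) / 2)))
    (algebraMap k[X] K (f ^ (q + 1) - h ^ ((q + 1) / 2)))

/-- `f ≠ 0`, the degree of `h` is odd and larger than `2 deg f`; `h` and all `h - ζ f ^ 2` with
`ζ ^ (q + 1) = 1` are irreducible and separable. -/
structure Admissible {k : Type} [Field k] (q : ℕ) (f h : k[X]) : Prop where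
  f_ne : f ≠ 0
  degree : 2 * f.natDegree < h.natDegree
  odd : Odd h.natDegree
  irr : Irreducible h ∧ h.Separable
  irr_sub : ∀ ζ : k, ζ ^ (q + 1) = 1 →
    Irreducible (h - C ζ * f ^ 2) ∧ (h - C ζ * f ^ 2).Separable

theorem Admissible.good {k : Type} [Field k] {l : ℕ} {f h : k[X]}
    (A : Admissible (4 * l + 1) f h) : Good l f h where
  f0 := A.f_ne
  deg := A.degree
  odd := A.odd
  irr := A.irr.1
  sep := A.irr.2
  irrH := fun ζ hζ => (A.irr_sub ζ hζ).1
  sepH := fun ζ hζ => (A.irr_sub ζ hζ).2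

theorem curve_eq {k : Type} [Field k] (K : Type) [Field K] [Algebra k[X] K] (l : ℕ)
    (f h : k[X]) : curve K (4 * l + 1) f h =
      crv (algebraMap k[X] K (aa l f h)) (algebraMap k[X] K (bb l f h)) := by
  have e1 : (4 * l + 1 + 1) / 2 = 2 * l + 1 := by omega
  have e2 : f ^ (4 * l + 1 + 1) = (f ^ 2) ^ (2 * l + 1) := by
    rw [← pow_mul]; congr 1; ring
  unfold curve aa bb
  rw [e1, e2]

theorem main {p ν : ℕ} [Fact p.Prime] (h4 : p ^ ν % 4 = 1) (hν : 0 < ν)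
    {k k' K F : Type} [Field k] [CharP k p] [Field k'] [Algebra k k'] [Field K]
    [Algebra k[X] K] [Field F] [Algebra k'[X] F] [IsFractionRing k'[X] F] [Algebra K F]
    (hT : IsTower k k' K F) {i ω : k} (hi : i ^ 2 = -1) (hω : IsPrimitiveRoot ω (p ^ ν + 1))
    {f h : k[X]} (A : Admissible (p ^ ν) f h) :
    TateAtTwo (F := F) k' (curve K (p ^ ν) f h) ∧
      ∃ P : Fin (p ^ ν) → Pt (curve K (p ^ ν) f h) K, LinearIndependent ℤ P := by
  haveI := hT.fracK
  have hp2 : p ≠ 2 := by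
    rintro rfl
    obtain ⟨n, rfl⟩ : ∃ n, ν = n + 1 := ⟨ν - 1, by omega⟩
    rw [pow_succ] at h4
    omega
  have h2 : (2 : k) ≠ 0 := by
    have h3 : ((2 : ℕ) : k) ≠ 0 := by
      rw [Ne, CharP.cast_eq_zero_iff k p]
      intro hd
      exact hp2 ((Nat.prime_dvd_prime_iff_eq Fact.out Nat.prime_two).1 hd)
    exact_mod_cast h3
  have hpos : 1 < p ^ ν := Nat.one_lt_pow (by omega) (Fact.out : p.Prime).one_lt
  obtain ⟨l, hQ⟩ : ∃ l, p ^ ν = 4 * l + 1 := ⟨p ^ ν / 4, by omega⟩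
  have hl : 0 < l := by omega
  have hω' : IsPrimitiveRoot ω (4 * l + 2) := by
    rw [hQ] at hω
    exact hω
  have hμ : IsPrimitiveRoot (ω ^ 2) (2 * l + 1) :=
    hω'.pow (by omega) (by ring)
  rw [hQ] at A
  have G := A.good
  have key1 := tate (K := K) (F := F) hT h2 G hQ hl hi hμ
  have key2 := indep K h2 G hQ hl hi hω'
  rw [hQ, curve_eq]
  exact ⟨key1, key2⟩

theorem exist {p ν : ℕ} [Fact p.Prime] (h4 : p ^ ν % 4 = 1) (hν : 0 < ν) :
    ∃ (k : Type) (_ : Field k) (_ : Finite k) (_ : CharP k p) (i ω : k), i ^ 2 = -1 ∧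
      IsPrimitiveRoot ω (p ^ ν + 1) ∧ ∀ N : ℕ, ∃ h : k[X], N ≤ h.natDegree ∧
        Admissible (p ^ ν) 1 h := by
  have hp2 : p ≠ 2 := by
    rintro rfl
    obtain ⟨n, rfl⟩ : ∃ n, ν = n + 1 := ⟨ν - 1, by omega⟩
    rw [pow_succ] at h4
    omega
  obtain ⟨k, i1, i2, i3, n, hcard, H⟩ := Pool.Agent.W309.RK.exists_family p ν hν
  obtain ⟨⟨i, hi⟩, ω, hω⟩ := Pool.Agent.W309.RK.exists_prim_and_i hp2 hcard
  refine ⟨k, i1, i2, i3, i, ω, hi, hω, fun N => ?_⟩
  obtain ⟨h, h1, h2, h3, h5⟩ := H N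
  haveI : PerfectField k := inferInstance
  refine ⟨h, h1, one_ne_zero, ?_, h2, ⟨h3, PerfectField.separable_of_irreducible h3⟩, ?_⟩
  · rw [natDegree_one, mul_zero]
    exact h2.pos
  · intro ζ hζ
    rw [one_pow, mul_one]
    exact ⟨h5 ζ hζ, PerfectField.separable_of_irreducible (h5 ζ hζ)⟩

theorem key_inf {κ : Type} [Field κ] (q : ℕ) {r : ℕ} (hr : r.Prime) (ζ : RatFunc κ)
    (hζ : ζ = 0 ∨ ζ ^ (q + 1) = 1) :
    RatFunc.X + ζ ≠ 0 ∧ ∀ b : RatFunc κ, b ^ r ≠ RatFunc.X + ζ := by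
  have hX : RatFunc.inftyValuation κ (RatFunc.X : RatFunc κ) = WithZero.exp (1 : ℤ) :=
    RatFunc.inftyValuation.X κ
  have hlt : RatFunc.inftyValuation κ ζ < RatFunc.inftyValuation κ (RatFunc.X : RatFunc κ) := by
    rw [hX]
    rcases hζ with rfl | h
    · rw [map_zero]
      exact WithZero.exp_pos
    · have h1 := congrArg (RatFunc.inftyValuation κ) h
      rw [map_pow, map_one] at h1
      have h3 : RatFunc.inftyValuation κ ζ = 1 := by
        rcases lt_trichotomy (RatFunc.inftyValuation κ ζ) 1 with h4 | h4 | h4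
        · exact absurd h1 (pow_lt_one₀ zero_le' h4 (Nat.succ_ne_zero q)).ne
        · exact h4
        · exact absurd h1 (one_lt_pow₀ h4 (Nat.succ_ne_zero q)).ne'
      rw [h3, ← WithZero.exp_zero]
      exact WithZero.exp_lt_exp.2 zero_lt_one
  have hval : RatFunc.inftyValuation κ (RatFunc.X + ζ) = WithZero.exp (1 : ℤ) := by
    rw [Valuation.map_add_eq_of_lt_left _ hlt, hX]
  have hne : RatFunc.X + ζ ≠ 0 := by
    intro h0
    rw [h0, map_zero] at hval
    exact WithZero.exp_ne_zero hval.symm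
  refine ⟨hne, ?_⟩
  intro b hb
  have hb0 : b ≠ 0 := by
    rintro rfl
    rw [zero_pow hr.ne_zero] at hb
    exact hne hb.symm
  have v := congrArg (RatFunc.inftyValuation κ) hb
  rw [hval, map_pow, RatFunc.inftyValuation_apply, RatFunc.inftyValuation_of_nonzero κ hb0,
    ← WithZero.exp_nsmul, WithZero.exp_inj, nsmul_eq_mul] at v
  have h1 : (r : ℤ) ∣ 1 := ⟨_, v.symm⟩
  have h3 := Int.eq_one_of_dvd_one (Int.natCast_nonneg r) h1
  exact hr.one_lt.ne' (by exact_mod_cast h3)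

/-- Over `k = κ(s)`: `f = 1` and `h = t ^ r - s` for all primes `r ≠ 2, p`. -/
theorem exist_inf {p : ℕ} [Fact p.Prime] {κ k : Type} [Field κ] [CharP κ p] [Field k]
    [Algebra κ[X] k] [IsFractionRing κ[X] k] (q : ℕ) {r : ℕ}
    (hr : r.Prime) (hr2 : r ≠ 2) (hrp : r ≠ p) :
    Admissible q 1 (X ^ r - C (algebraMap κ[X] k X)) := by
  have hinj : Function.Injective ((algebraMap κ[X] k).comp C) := by
    rw [RingHom.coe_comp]
    exact (IsFractionRing.injective κ[X] k).comp C_injective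
  haveI : CharP k p := charP_of_injective_ringHom hinj p
  have hr0 : ((r : ℕ) : k) ≠ 0 := by
    rw [Ne, CharP.cast_eq_zero_iff k p]
    intro hd
    exact hrp ((Nat.prime_dvd_prime_iff_eq Fact.out hr).1 hd).symm
  have e : idf κ k (algebraMap κ[X] k X) = RatFunc.X := by
    rw [AlgEquiv.commutes, RatFunc.algebraMap_X]
  have key : ∀ ζ : k, (ζ = 0 ∨ ζ ^ (q + 1) = 1) → algebraMap κ[X] k X + ζ ≠ 0 ∧
      ∀ b : k, b ^ r ≠ algebraMap κ[X] k X + ζ := by
    intro ζ hζ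
    obtain ⟨h1, h3⟩ := key_inf q hr (idf κ k ζ) (by
      rcases hζ with rfl | h
      · left; exact map_zero _
      · right; rw [← map_pow, h, map_one])
    rw [← e, ← map_add] at h1 h3
    refine ⟨fun h0 => h1 (by rw [h0, map_zero]), fun b hb => h3 (idf κ k b) ?_⟩
    rw [← map_pow, hb]
  have irr : ∀ ζ : k, (ζ = 0 ∨ ζ ^ (q + 1) = 1) →
      Irreducible (X ^ r - C (algebraMap κ[X] k X + ζ)) ∧
        (X ^ r - C (algebraMap κ[X] k X + ζ)).Separable := by
    intro ζ hζ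
    exact ⟨X_pow_sub_C_irreducible_of_prime hr (key ζ hζ).2,
      separable_X_pow_sub_C _ hr0 (key ζ hζ).1⟩
  have hz := irr 0 (Or.inl rfl)
  rw [add_zero] at hz
  refine ⟨one_ne_zero, ?_, ?_, hz, ?_⟩
  · rw [natDegree_one, mul_zero, natDegree_X_pow_sub_C]
    exact hr.pos
  · rw [natDegree_X_pow_sub_C]
    exact hr.odd_of_ne_two hr2
  · intro ζ hζ
    have e : X ^ r - C (algebraMap κ[X] k X) - C ζ * 1 ^ 2 =
        (X ^ r - C (algebraMap κ[X] k X + ζ) : k[X]) := by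
      rw [C_add]
      ring
    rw [e]
    exact irr ζ (Or.inr hζ)

end Pool.Agent.TH958.T2
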