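import Mathlib

/-!
The identities behind the points on `y ^ 2 = x (x - f ^ (q + 1) - h ^ m) (x - f ^ (q + 1) + h ^ m)`,
`q = p ^ ν = 4 l + 1`, `m = 2 l + 1`.
-/

set_option autoImplicit false
set_option linter.all false

open Polynomial

namespace Pool.Agent.TH958.T2

section ring

variable {R : Type*} [CommRing R]

/-- The coefficients of `(s + i f) ^ (2 j) = A + B s`, where `s ^ 2 = z`, `i ^ 2 = -1`. -/
def co (i f z : R) : ℕ → R × R
  | 0 => (1, 0)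
  | (j + 1) => ((z - f ^ 2) * (co i f z j).1 + 2 * i * f * z * (co i f z j).2,
      2 * i * f * (co i f z j).1 + (z - f ^ 2) * (co i f z j).2)

theorem co_norm {i f z : R} (hi : i ^ 2 = -1) (j : ℕ) :
    (co i f z j).1 ^ 2 - z * (co i f z j).2 ^ 2 = (z + f ^ 2) ^ (2 * j) := by
  induction j with
  | zero => simp [co]
  | succ j ih =>
    rw [show 2 * (j + 1) = 2 * j + 2 by ring, pow_add, ← ih, co]
    linear_combination (-(4 * f ^ 2 * z) * ((co i f z j).1 ^ 2 - z * (co i f z j).2 ^ 2)) * hi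

theorem co_pow {i f z s : R} (hi : i ^ 2 = -1) (hs : s ^ 2 = z) (j : ℕ) :
    (s + i * f) ^ (2 * j) = (co i f z j).1 + (co i f z j).2 * s ∧
    (s - i * f) ^ (2 * j) = (co i f z j).1 - (co i f z j).2 * s := by
  induction j with
  | zero => simp [co]
  | succ j ih =>
    rw [show 2 * (j + 1) = 2 * j + 2 by ring, pow_add, pow_add, ih.1, ih.2, co]
    subst hs
    constructor
    · linear_combination (f ^ 2 * ((co i f (s ^ 2) j).1 + (co i f (s ^ 2) j).2 * s)) * hi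
    · linear_combination (f ^ 2 * ((co i f (s ^ 2) j).1 - (co i f (s ^ 2) j).2 * s)) * hi

theorem co_map {S : Type*} [CommRing S] (φ : R →+* S) (i f z : R) (j : ℕ) :
    φ (co i f z j).1 = (co (φ i) (φ f) (φ z) j).1 ∧
    φ (co i f z j).2 = (co (φ i) (φ f) (φ z) j).2 := by
  induction j with
  | zero => simp [co]
  | succ j ih =>
    simp only [co, map_add, map_mul, map_sub, map_pow, ih.1, ih.2, map_ofNat, true_and]

theorem i_pow {i : R} (hi : i ^ 2 = -1) (l : ℕ) : i ^ (4 * l + 1) = i := by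
  have h : i ^ 4 = 1 := by
    rw [show 4 = 2 * 2 by norm_num, pow_mul, hi]; ring
  rw [pow_succ, pow_mul, h, one_pow, one_mul]

theorem sum_root {L : Type*} [Field L] {p : ℕ} [Fact p.Prime] [CharP L p] (h2 : (2 : L) ≠ 0)
    {ν l : ℕ} (hQ : p ^ ν = 4 * l + 1) {i f z s : L} (hi : i ^ 2 = -1) (hs : s ^ 2 = z) :
    z ^ (2 * l + 1) + (f ^ 2) ^ (2 * l + 1) =
      (z + f ^ 2) * ((co i f z l).1 ^ 2 + z * (co i f z l).2 ^ 2) := by
  obtain ⟨e1, e2⟩ := co_pow (f := f) hi hs l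
  have f1 : (s + i * f) ^ (4 * l + 1) = s ^ (4 * l + 1) + i * f ^ (4 * l + 1) := by
    rw [← hQ, add_pow_char_pow, mul_pow, hQ, i_pow hi]
  have f2 : (s - i * f) ^ (4 * l + 1) = s ^ (4 * l + 1) - i * f ^ (4 * l + 1) := by
    rw [← hQ, sub_pow_char_pow, mul_pow, hQ, i_pow hi]
  have g1 : (s + i * f) ^ (4 * l + 1) = (s + i * f) *
      ((co i f z l).1 + (co i f z l).2 * s) ^ 2 := by
    rw [← e1, ← pow_mul, pow_succ, mul_comm]; ring
  have g2 : (s - i * f) ^ (4 * l + 1) = (s - i * f) *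
      ((co i f z l).1 - (co i f z l).2 * s) ^ 2 := by
    rw [← e2, ← pow_mul, pow_succ, mul_comm]; ring
  have k1 := f1.symm.trans g1
  have k2 := f2.symm.trans g2
  have hz : z ^ (2 * l + 1) = s ^ (4 * l + 1) * s := by
    rw [← hs, ← pow_mul, ← pow_succ]; congr 1; ring
  have hf : (f ^ 2) ^ (2 * l + 1) = f ^ (4 * l + 1) * f := by
    rw [← pow_mul, ← pow_succ]; congr 1; ring
  apply mul_left_cancel₀ h2
  rw [hz, hf]
  subst hs
  linear_combination (s - i * f) * k1 + (s + i * f) * k2 -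
    (-(2 * f ^ (4 * l + 1) * f) + 2 * f ^ 2 * ((co i f (s ^ 2) l).1 ^ 2 +
      s ^ 2 * (co i f (s ^ 2) l).2 ^ 2)) * hi

end ring

section dom

variable {R : Type*} [CommRing R] [IsDomain R]

theorem sum_eq {p : ℕ} [Fact p.Prime] [CharP R p] (h2 : (2 : R) ≠ 0)
    {ν l : ℕ} (hQ : p ^ ν = 4 * l + 1) {i f z : R} (hi : i ^ 2 = -1) :
    z ^ (2 * l + 1) + (f ^ 2) ^ (2 * l + 1) =
      (z + f ^ 2) * ((co i f z l).1 ^ 2 + z * (co i f z l).2 ^ 2) := by
  let L := AlgebraicClosure (FractionRing R)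
  have hinj : Function.Injective (algebraMap R L) := by
    rw [IsScalarTower.algebraMap_eq R (FractionRing R) L]
    exact (algebraMap (FractionRing R) L).injective.comp (IsFractionRing.injective R _)
  haveI : CharP L p := charP_of_injective_ringHom hinj p
  obtain ⟨s, hs⟩ := IsAlgClosed.exists_pow_nat_eq (algebraMap R L z) (n := 2) (by norm_num)
  have h2L : (2 : L) ≠ 0 := by
    have : algebraMap R L 2 ≠ 0 := by
      rw [Ne, map_eq_zero_iff _ hinj]; exact h2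
    rwa [map_ofNat] at this
  have hiL : (algebraMap R L i) ^ 2 = -1 := by rw [← map_pow, hi, map_neg, map_one]
  have key := sum_root h2L hQ (f := algebraMap R L f) hiL hs
  obtain ⟨m1, m2⟩ := co_map (algebraMap R L) i f z l
  apply hinj
  rw [← m1, ← m2] at key
  simpa only [map_add, map_mul, map_pow] using key

/-- `z ^ m + f ^ (2 m) + (z + f ^ 2) ^ m = 2 (z + f ^ 2) A ^ 2`. -/
theorem plus_eq {p : ℕ} [Fact p.Prime] [CharP R p] (h2 : (2 : R) ≠ 0)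
    {ν l : ℕ} (hQ : p ^ ν = 4 * l + 1) {i f z : R} (hi : i ^ 2 = -1) :
    z ^ (2 * l + 1) + (f ^ 2) ^ (2 * l + 1) + (z + f ^ 2) ^ (2 * l + 1) =
      2 * (z + f ^ 2) * (co i f z l).1 ^ 2 := by
  have h1 := sum_eq h2 hQ (f := f) (z := z) hi
  have h3 := co_norm (f := f) (z := z) hi l
  rw [h1, pow_succ (z + f ^ 2), ← h3]
  ring

/-- `z ^ m + f ^ (2 m) - (z + f ^ 2) ^ m = 2 (z + f ^ 2) z B ^ 2`. -/
theorem minus_eq {p : ℕ} [Fact p.Prime] [CharP R p] (h2 : (2 : R) ≠ 0)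
    {ν l : ℕ} (hQ : p ^ ν = 4 * l + 1) {i f z : R} (hi : i ^ 2 = -1) :
    z ^ (2 * l + 1) + (f ^ 2) ^ (2 * l + 1) - (z + f ^ 2) ^ (2 * l + 1) =
      2 * (z + f ^ 2) * z * (co i f z l).2 ^ 2 := by
  have h1 := sum_eq h2 hQ (f := f) (z := z) hi
  have h3 := co_norm (f := f) (z := z) hi l
  rw [h1, pow_succ (z + f ^ 2), ← h3]
  ring

end dom

/-- The points. -/
theorem pt_eq {R : Type*} [CommRing R] {p : ℕ} [Fact p.Prime] [CharP R p]
    {ν l : ℕ} (hQ : p ^ ν = 4 * l + 1) {f z h : R}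
    (hw : h ^ (4 * l + 2) = (z + f ^ 2) ^ (4 * l + 2)) :
    (z ^ (l + 1) * f * (z ^ (2 * l) - (f ^ 2) ^ (2 * l))) ^ 2 = (-z ^ (2 * l + 1)) *
      (-z ^ (2 * l + 1) - ((f ^ 2) ^ (2 * l + 1) + h ^ (2 * l + 1))) *
      (-z ^ (2 * l + 1) - ((f ^ 2) ^ (2 * l + 1) - h ^ (2 * l + 1))) := by
  have h1 : (z + f ^ 2) ^ (4 * l + 1) = z ^ (4 * l + 1) + (f ^ 2) ^ (4 * l + 1) := by
    rw [← hQ, add_pow_char_pow]
  have h3 : (h ^ (2 * l + 1)) ^ 2 = (z ^ (4 * l + 1) + (f ^ 2) ^ (4 * l + 1)) * (z + f ^ 2) := by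
    rw [← h1, ← pow_succ, ← hw, ← pow_mul]
    congr 1
    ring
  have e1 : z ^ (2 * l + 1) = (z ^ l) ^ 2 * z := by rw [pow_succ, ← pow_mul, mul_comm 2 l]
  have e2 : z ^ (4 * l + 1) = (z ^ l) ^ 4 * z := by rw [pow_succ, ← pow_mul, mul_comm 4 l]
  have e3 : (f ^ 2) ^ (2 * l + 1) = ((f ^ 2) ^ l) ^ 2 * f ^ 2 := by
    rw [pow_succ, ← pow_mul, mul_comm 2 l]; ring
  have e4 : (f ^ 2) ^ (4 * l + 1) = ((f ^ 2) ^ l) ^ 4 * f ^ 2 := by
    rw [pow_succ, mul_comm 4 l, pow_mul]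
  have e5 : z ^ (2 * l) = (z ^ l) ^ 2 := by rw [← pow_mul, mul_comm 2 l]
  have e6 : (f ^ 2) ^ (2 * l) = ((f ^ 2) ^ l) ^ 2 := by rw [← pow_mul, ← pow_mul]; ring
  have e7 : z ^ (l + 1) = z ^ l * z := pow_succ z l
  rw [e2, e4] at h3
  rw [e1, e3, e5, e6, e7]
  generalize z ^ l = Z at *
  generalize (f ^ 2) ^ l = G at *
  generalize h ^ (2 * l + 1) = H at *
  linear_combination (-Z ^ 2 * z) * h3

end Pool.Agent.TH958.T2
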