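import Pool.Agent.TH958.T2.Pts
import Pool.Agent.W309.RK.Short
import Pool.Agent.W309.RK.Alg

/-!
Independent points on `y ^ 2 = x (x - f ^ (q + 1) - h ^ m) (x - f ^ (q + 1) + h ^ m)`.
-/

set_option autoImplicit false
set_option linter.all false

open Polynomial IsDedekindDomain WeierstrassCurve WeierstrassCurve.Affine
open scoped Classical

namespace Pool.Agent.TH958.T2

open Pool.Agent.TH115.GD Pool.Agent.W309.RK

section ord

variable {k K : Type} [Field k] [Field K] [Algebra k[X] K] [IsFractionRing k[X] K]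

/-- The identification of `K` with `k(t)`. -/
noncomputable def idf (k K : Type) [Field k] [Field K] [Algebra k[X] K] [IsFractionRing k[X] K] :
    K ≃ₐ[k[X]] RatFunc k :=
  IsLocalization.algEquiv (nonZeroDivisors k[X]) K (RatFunc k)

/-- The order at an irreducible polynomial (with the opposite sign). -/
noncomputable def ordK (π : k[X]) (hπ : Irreducible π) (x : K) : ℤ := ordAt π hπ (idf k K x)

theorem ordK_mul (π : k[X]) (hπ : Irreducible π) (f g : K) (hf : f ≠ 0) (hg : g ≠ 0) :
    ordK π hπ (f * g) = ordK π hπ f + ordK π hπ g := by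
  unfold ordK
  rw [map_mul, ordAt_mul]
  · exact (map_ne_zero_iff _ (idf k K).injective).2 hf
  · exact (map_ne_zero_iff _ (idf k K).injective).2 hg

theorem ordK_alg (π : k[X]) (hπ : Irreducible π) (p : k[X]) :
    ordK π hπ (algebraMap k[X] K p) = ordAt π hπ (algebraMap k[X] (RatFunc k) p) := by
  unfold ordK
  rw [AlgEquiv.commutes]

theorem ord_par (π : k[X]) (hπ : Irreducible π) {c : k} (hc : c ≠ 0) {q s : k[X]} (hq : q ≠ 0)
    (hs : s ≠ 0) : ((ordK π hπ (algebraMap k[X] K (C c * q * s ^ 2)) : ℤ) : ZMod 2) =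
      ((ordK π hπ (algebraMap k[X] K q) : ℤ) : ZMod 2) := by
  have inj := IsFractionRing.injective k[X] K
  have hcc : (C c : k[X]) ≠ 0 := C_ne_zero.2 hc
  have n1 : algebraMap k[X] K (C c) ≠ 0 := by simpa using hc
  have n2 : algebraMap k[X] K q ≠ 0 := by simpa using hq
  have n3 : algebraMap k[X] K s ≠ 0 := by simpa using hs
  rw [map_mul, map_mul, map_pow, ordK_mul _ _ _ _ (mul_ne_zero n1 n2) (pow_ne_zero 2 n3),
    ordK_mul _ _ _ _ n1 n2, pow_two, ordK_mul _ _ _ _ n3 n3, ordK_alg _ _ (C c),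
    ordAt_of_not_dvd π hπ (f := C c) (fun hd => hπ.not_isUnit
      (isUnit_of_dvd_unit hd (isUnit_C.2 (isUnit_iff_ne_zero.2 hc)))), zero_add]
  push_cast
  rw [CharTwo.add_self_eq_zero, add_zero]

end ord

section geo

variable {k K : Type} [Field k] [Field K] [Algebra k[X] K] [IsFractionRing k[X] K]
  (h2 : (2 : k) ≠ 0) {l : ℕ} {f h : k[X]} (G : Good l f h)

include G in
theorem not_dvd_h {ζ : k} (hζ : ζ ^ (4 * l + 2) = 1) : ¬ h ∣ HH f h ζ := by
  intro hd
  have h1 : h ∣ C ζ * f ^ 2 := by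
    have h3 := dvd_sub (dvd_refl h) hd
    unfold HH at h3
    rwa [sub_sub_cancel] at h3
  have h3 := dvd_unit_mul (root_ne (by omega) hζ) h1
  exact G.irr.not_isUnit (G.hf.isUnit_of_dvd' dvd_rfl h3)

include G in
theorem not_dvd_H {ζ ξ : k} (hne : ζ ≠ ξ) : ¬ HH f h ζ ∣ HH f h ξ := by
  intro hd
  have h1 : HH f h ζ ∣ C (ξ - ζ) * f ^ 2 := by
    have h3 := dvd_sub (dvd_refl (HH f h ζ)) hd
    have e : HH f h ζ - HH f h ξ = C (ξ - ζ) * f ^ 2 := by
      unfold HH
      rw [C_sub]
      ring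
    rwa [e] at h3
  have h3 := dvd_unit_mul (sub_ne_zero.2 (Ne.symm hne)) h1
  have h4 := natDegree_le_of_dvd h3 (pow_ne_zero 2 G.f0)
  rw [G.degH, degf2] at h4
  have := G.deg
  omega

theorem root0 (α β : K) : HasRoot ((crv α β).baseChange K).toAffine 0 where
  a1 := map_zero _
  a3 := map_zero _
  root := by
    have : ((crv α β).baseChange K).toAffine.a₆ = 0 := map_zero _
    rw [this]
    ring

theorem rootA (α β : K) : HasRoot ((crv α β).baseChange K).toAffine α where
  a1 := map_zero _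
  a3 := map_zero _
  root := by
    have e6 : ((crv α β).baseChange K).toAffine.a₆ = 0 := map_zero _
    have e2 : ((crv α β).baseChange K).toAffine.a₂ = -(α + β) := rfl
    have e4 : ((crv α β).baseChange K).toAffine.a₄ = α * β := rfl
    rw [e6, e2, e4]
    ring

variable (K) in
include h2 G in
/-- A point with given data. -/
theorem pt_data {p q : k[X]} (hp : p ≠ 0) (hq : q ≠ 0) (hD : Data l f h p q) :
    ∃ P : Pt (crv (algebraMap k[X] K (aa l f h)) (algebraMap k[X] K (bb l f h))) K,
      (∀ (π : k[X]) (hπ : Irreducible π), ((ordK π hπ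
        (del ((crv (algebraMap k[X] K (aa l f h)) (algebraMap k[X] K (bb l f h))).baseChange
          K).toAffine 0 P) : ℤ) : ZMod 2) = ((ordK π hπ (algebraMap k[X] K p) : ℤ) : ZMod 2)) ∧
      ∀ (π : k[X]) (hπ : Irreducible π), ((ordK π hπ
        (del ((crv (algebraMap k[X] K (aa l f h)) (algebraMap k[X] K (bb l f h))).baseChange
          K).toAffine (algebraMap k[X] K (aa l f h)) P) : ℤ) : ZMod 2) =
        ((ordK π hπ (algebraMap k[X] K q) : ℤ) : ZMod 2) := by
  obtain ⟨x, y, s0, s1, c0, c1, hc0, hc1, hs0, hs1, hxy, hx, hxa⟩ := hD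
  have inj := IsFractionRing.injective k[X] K
  have h2K : (2 : K) ≠ 0 := by
    have h3 : algebraMap k[X] K (C 2) ≠ 0 := by simpa using h2
    rwa [C_ofNat, map_ofNat] at h3
  have haK : algebraMap k[X] K (aa l f h) ≠ 0 := by simpa using G.a0
  have hbK : algebraMap k[X] K (bb l f h) ≠ 0 := by simpa using G.b0
  have habK : algebraMap k[X] K (aa l f h) ≠ algebraMap k[X] K (bb l f h) :=
    fun e => G.ab h2 (inj e)
  have hE := isE (algebraMap k[X] K (aa l f h)) (algebraMap k[X] K (bb l f h)) K h2K haK hbK habK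
  have hn : ((crv (algebraMap k[X] K (aa l f h)) (algebraMap k[X] K (bb l f h))).baseChange
      K).toAffine.Nonsingular (algebraMap k[X] K x) (algebraMap k[X] K y) := by
    rw [hE.nonsingular]
    have := congrArg (algebraMap k[X] K) hxy
    rw [map_pow, map_mul, map_mul, map_sub, map_sub] at this
    exact this
  have x0 : x ≠ 0 := by
    rw [hx]
    exact mul_ne_zero (mul_ne_zero (C_ne_zero.2 hc0) hp) (pow_ne_zero _ hs0)
  have xa : x - aa l f h ≠ 0 := by
    rw [hxa]
    exact mul_ne_zero (mul_ne_zero (C_ne_zero.2 hc1) hq) (pow_ne_zero _ hs1)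
  have i0 : algebraMap k[X] K x ≠ 0 := by simpa using x0
  have i1 : algebraMap k[X] K x ≠ algebraMap k[X] K (aa l f h) := fun e =>
    xa (sub_eq_zero.2 (inj e))
  refine ⟨Point.some _ _ hn, ?_, ?_⟩
  · intro π hπ
    have e : del ((crv (algebraMap k[X] K (aa l f h)) (algebraMap k[X] K (bb l f h))).baseChange
        K).toAffine 0 (Point.some _ _ hn) = algebraMap k[X] K (C c0 * p * s0 ^ 2) := by
      rw [← hx]
      show (if _ then _ else _) = _
      rw [if_neg i0, sub_zero]
    rw [e]
    exact ord_par π hπ hc0 hp hs0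
  · intro π hπ
    have e : del ((crv (algebraMap k[X] K (aa l f h)) (algebraMap k[X] K (bb l f h))).baseChange
        K).toAffine (algebraMap k[X] K (aa l f h)) (Point.some _ _ hn) =
        algebraMap k[X] K (C c1 * q * s1 ^ 2) := by
      rw [← hxa, map_sub]
      show (if _ then _ else _) = _
      rw [if_neg i1]
    rw [e]
    exact ord_par π hπ hc1 hq hs1

variable {p : ℕ} [Fact p.Prime] [CharP k p] {ν : ℕ} (hQ : p ^ ν = 4 * l + 1) (hl : 0 < l)
  {i : k} (hi : i ^ 2 = -1)

variable (K) in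
include h2 G hQ hl hi in
theorem exists_hom {ω : k} (hω : IsPrimitiveRoot ω (4 * l + 2)) :
    ∃ (ι : Type) (_ : Fintype ι) (φ : Pt (crv (algebraMap k[X] K (aa l f h))
      (algebraMap k[X] K (bb l f h))) K →+ (ι → ZMod 2)),
      Fintype.card ι = 4 * l + 3 ∧ Function.Surjective φ := by
  have inj := IsFractionRing.injective k[X] K
  have hpos : 0 < 4 * l + 2 := by omega
  let ι := {z : k // z ∈ nthRootsFinset (4 * l + 2) (1 : k)}
  letI : Fintype ι := Finset.Subtype.fintype _
  have hsg : ∀ x : k, x ^ (4 * l + 2) = 1 → x ^ (2 * l + 1) = 1 ∨ x ^ (2 * l + 1) = -1 := by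
    intro x h3
    apply mul_self_eq_one_iff.1
    rw [← h3]
    ring
  have hι : ∀ z : ι, z.1 ^ (4 * l + 2) = 1 := fun z => (mem_nthRootsFinset hpos 1).1 z.2
  have hsgn : ∀ z : ι, z.1 ^ (2 * l + 1) = 1 ∨ z.1 ^ (2 * l + 1) = -1 := fun z =>
    hsg z.1 (hι z)
  have hcard : Fintype.card ι = 4 * l + 2 := by
    rw [Fintype.card_coe, hω.card_nthRootsFinset]
  set α := algebraMap k[X] K (aa l f h) with hα
  set β := algebraMap k[X] K (bb l f h) with hβ
  have hirr : ∀ z : ι, Irreducible (HH f h z.1) := fun z => G.irrH z.1 (hι z)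
  let φo : Option ι → (Pt (crv α β) K →+ ZMod 2) := fun o => match o with
    | none => parHom (rootA α β) (ordK h G.irr) (ordK_mul _ G.irr)
    | some z => parHom (root0 α β) (ordK (HH f h z.1) (hirr z)) (ordK_mul _ (hirr z))
  let φ : Pt (crv α β) K →+ (Option ι → ZMod 2) := AddMonoidHom.pi φo
  obtain ⟨R, hR0, hR1⟩ := pt_data K h2 G one_ne_zero G.h0 (data_R G hi)
  have hq0 : ∀ z : ι, (if z.1 ^ (2 * l + 1) = 1 then h else h * HH f h z.1) ≠ 0 := by
    intro z
    split_ifs
    · exact G.h0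
    · exact mul_ne_zero G.h0 (hirr z).ne_zero
  have hPz := fun z : ι => pt_data K h2 G (hirr z).ne_zero (hq0 z)
    (data_z h2 G hQ hl hi (hsgn z))
  choose P hP0 hP1 using hPz
  -- the values
  have n1 : ∀ (π : k[X]) (hπ : Irreducible π), ordK (K := K) π hπ (algebraMap k[X] K 1) = 0 := by
    intro π hπ
    rw [ordK_alg]
    exact ordAt_of_not_dvd π hπ (fun hd => hπ.not_isUnit (isUnit_of_dvd_one hd))
  have v1 : φ R none = 1 := by
    show ((ordK h G.irr (del _ _ R) : ℤ) : ZMod 2) = 1
    rw [hR1, ordK_alg, ordAt_self]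
    decide
  have v2 : ∀ w : ι, φ R (some w) = 0 := by
    intro w
    show ((ordK (HH f h w.1) (hirr w) (del _ _ R) : ℤ) : ZMod 2) = 0
    rw [hR0, n1, Int.cast_zero]
  have v3 : ∀ z : ι, φ (P z) none = 1 := by
    intro z
    show ((ordK h G.irr (del _ _ (P z)) : ℤ) : ZMod 2) = 1
    rw [hP1]
    split_ifs with hz
    · rw [ordK_alg, ordAt_self]
      decide
    · have m1 : algebraMap k[X] K h ≠ 0 := by simpa using G.h0
      have m2 : algebraMap k[X] K (HH f h z.1) ≠ 0 := by simpa using (hirr z).ne_zero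
      rw [map_mul, ordK_mul _ _ _ _ m1 m2, ordK_alg, ordK_alg, ordAt_self,
        ordAt_of_not_dvd _ _ (not_dvd_h G (hι z))]
      decide
  have v4 : ∀ z w : ι, φ (P z) (some w) = if w = z then 1 else 0 := by
    intro z w
    show ((ordK (HH f h w.1) (hirr w) (del _ _ (P z)) : ℤ) : ZMod 2) = _
    rw [hP0]
    by_cases hwz : w = z
    · subst hwz
      rw [if_pos rfl, ordK_alg, ordAt_self]
      decide
    · rw [if_neg hwz, ordK_alg, ordAt_of_not_dvd _ _
        (not_dvd_H G (fun hc => hwz (Subtype.ext hc))), Int.cast_zero]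
  have hsurj : Function.Surjective φ := by
    refine surjective_of_single φ (fun o => match o with
      | none => R
      | some z => P z + R) ?_
    intro o o'
    rcases o with _ | z
    · rcases o' with _ | w
      · rw [if_pos rfl]; exact v1
      · rw [if_neg (by simp)]; exact v2 w
    · show φ (P z + R) o' = _
      rw [map_add, Pi.add_apply]
      rcases o' with _ | w
      · rw [if_neg (by simp), v1, v3]
        exact CharTwo.add_self_eq_zero (1 : ZMod 2)
      · rw [v2, v4, add_zero]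
        by_cases hwz : w = z
        · rw [if_pos hwz, if_pos (by rw [hwz])]
        · rw [if_neg hwz, if_neg (fun e => hwz (Option.some.inj e))]
  exact ⟨Option ι, inferInstance, φ, by rw [Fintype.card_option, hcard], hsurj⟩

variable (K) in
include h2 in
theorem tors_two (l : ℕ) (f h : k[X]) :
    Set.Finite {P : Pt (crv (algebraMap k[X] K (aa l f h)) (algebraMap k[X] K (bb l f h))) K |
      P + P = 0} ∧
    Set.ncard {P : Pt (crv (algebraMap k[X] K (aa l f h)) (algebraMap k[X] K (bb l f h))) K |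
      P + P = 0} ≤ 4 := by
  have h2K : (2 : K) ≠ 0 := by
    have h3 : algebraMap k[X] K (C 2) ≠ 0 := by simpa using h2
    rwa [C_ofNat, map_ofNat] at h3
  exact (root0 (algebraMap k[X] K (aa l f h)) (algebraMap k[X] K (bb l f h))).card_two
    (e₂ := algebraMap k[X] K (aa l f h)) (e₃ := algebraMap k[X] K (bb l f h)) h2K (by
    show -(algebraMap k[X] K (aa l f h) + algebraMap k[X] K (bb l f h)) = _
    ring) (by
    show algebraMap k[X] K (aa l f h) * algebraMap k[X] K (bb l f h) = _
    ring)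

variable (K) in
include h2 G hQ hl hi in
theorem indep {ω : k} (hω : IsPrimitiveRoot ω (4 * l + 2)) :
    ∃ P : Fin (4 * l + 1) → Pt (crv (algebraMap k[X] K (aa l f h))
      (algebraMap k[X] K (bb l f h))) K, LinearIndependent ℤ P := by
  obtain ⟨ι, _, φ, hc, hsurj⟩ := exists_hom K h2 G hQ hl hi hω
  obtain ⟨hf1, hf2⟩ := tors_two K h2 l f h
  have hfin := exists_independent φ hsurj hf1 hf2
  have hcc : Fintype.card ι - 2 = 4 * l + 1 := by rw [hc]; omega
  rw [hcc] at hfin
  exact hfin

end geo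

end Pool.Agent.TH958.T2
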