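import Pool.Agent.TH115.GD.Rk
import Pool.Agent.TH958.T2.Idn

/-!
Enough points on `y ^ 2 = x (x - f ^ (q + 1) - h ^ m) (x - f ^ (q + 1) + h ^ m)`,
`q = p ^ ν = 4 l + 1`, `m = 2 l + 1`.
-/

set_option autoImplicit false
set_option linter.all false

open Polynomial IsDedekindDomain WeierstrassCurve WeierstrassCurve.Affine
open scoped Classical

namespace Pool.Agent.TH958.T2

open Pool.Agent.TH115.GD

section poly

variable {k : Type} [Field k]

/-- `a = f ^ (2 m) + h ^ m`. -/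
noncomputable def aa (l : ℕ) (f h : k[X]) : k[X] := (f ^ 2) ^ (2 * l + 1) + h ^ (2 * l + 1)

/-- `b = f ^ (2 m) - h ^ m`. -/
noncomputable def bb (l : ℕ) (f h : k[X]) : k[X] := (f ^ 2) ^ (2 * l + 1) - h ^ (2 * l + 1)

/-- `h - ζ f ^ 2`. -/
noncomputable def HH (f h : k[X]) (ζ : k) : k[X] := h - C ζ * f ^ 2

theorem prod_nth {n : ℕ} (hn : 0 < n) (g : k[X] → k[X]) :
    ∏ z ∈ nthRootsFinset n (1 : k[X]), g z = ∏ z ∈ nthRootsFinset n (1 : k), g (C z) := by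
  symm
  refine Finset.prod_nbij (fun z => C z) ?_ ?_ ?_ (fun _ _ => rfl)
  · intro z hz
    rw [mem_nthRootsFinset hn] at hz ⊢
    rw [← C_pow, hz, C_1]
  · intro a _ b _ hab
    exact C_injective hab
  · intro z hz
    rw [Finset.mem_coe, mem_nthRootsFinset hn] at hz
    have hu : IsUnit z := IsUnit.of_pow_eq_one hz hn.ne'
    obtain ⟨c, hc, rfl⟩ := Polynomial.isUnit_iff.1 hu
    refine ⟨c, ?_, rfl⟩
    rw [Finset.mem_coe, mem_nthRootsFinset hn]
    rw [← C_pow, ← C_1] at hz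
    exact C_injective hz

theorem fac_b {l : ℕ} {f h : k[X]} {μ : k} (hμ : IsPrimitiveRoot μ (2 * l + 1)) :
    bb l f h = C (-1) * ∏ z ∈ nthRootsFinset (2 * l + 1) (1 : k), HH f h z := by
  have h1 : IsPrimitiveRoot (C μ : k[X]) (2 * l + 1) := hμ.map_of_injective C_injective
  have hpos : 0 < 2 * l + 1 := Nat.succ_pos _
  have h3 := h1.pow_sub_pow_eq_prod_sub_mul h (f ^ 2) hpos
  rw [prod_nth hpos (fun z => h - z * f ^ 2)] at h3
  unfold bb HH
  rw [← h3, C_neg, C_1]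
  ring

theorem fac_a {l : ℕ} {f h : k[X]} {μ : k} (hμ : IsPrimitiveRoot μ (2 * l + 1)) :
    aa l f h = ∏ z ∈ nthRootsFinset (2 * l + 1) (1 : k), HH f h (-z) := by
  have h1 : IsPrimitiveRoot (C μ : k[X]) (2 * l + 1) := hμ.map_of_injective C_injective
  have hpos : 0 < 2 * l + 1 := Nat.succ_pos _
  have h3 := h1.pow_add_pow_eq_prod_add_mul h (f ^ 2) (odd_two_mul_add_one l)
  rw [prod_nth hpos (fun z => h + z * f ^ 2)] at h3
  unfold aa HH
  rw [add_comm, h3]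
  refine Finset.prod_congr rfl fun z _ => ?_
  rw [C_neg]
  ring

theorem exp_of_dvd {ι : Type} (H : ι → k[X]) (s : Finset ι)
    (hirr : ∀ j ∈ s, Irreducible (H j)) : ∀ A : k[X], A ∣ ∏ j ∈ s, H j →
    ∃ (c : k) (x : ι → ℕ), c ≠ 0 ∧ A = C c * ∏ j ∈ s, H j ^ x j := by
  classical
  induction s using Finset.induction_on with
  | empty =>
    intro A hA
    rw [Finset.prod_empty, ← C_1] at hA
    obtain ⟨c, hc, rfl⟩ := dvd_C one_ne_zero hA
    exact ⟨c, fun _ => 0, hc, by simp⟩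
  | insert i s hi ih =>
    intro A hA
    rw [Finset.prod_insert hi] at hA
    obtain ⟨A1, A2, h1, h3, rfl⟩ := exists_dvd_and_dvd_of_dvd_mul hA
    obtain ⟨c, x, hc, rfl⟩ := dvd_irr (hirr i (Finset.mem_insert_self i s)) h1
    obtain ⟨d, y, hd, rfl⟩ := ih (fun j hj => hirr j (Finset.mem_insert_of_mem hj)) A2 h3
    refine ⟨c * d, Function.update y i x, mul_ne_zero hc hd, ?_⟩
    rw [Finset.prod_insert hi, Function.update_self]
    have : ∏ j ∈ s, H j ^ Function.update y i (x : ℕ) j = ∏ j ∈ s, H j ^ y j := by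
      refine Finset.prod_congr rfl fun j hj => ?_
      rw [Function.update_of_ne]
      rintro rfl
      exact hi hj
    rw [this, C_mul]
    ring

theorem exp_pow {h D : k[X]} (hh : Irreducible h) {m : ℕ} {u : k} (hu : u ≠ 0)
    (hD : D ∣ C u * h ^ m) : ∃ (c : k) (z : ℕ), c ≠ 0 ∧ D = C c * h ^ z := by
  obtain ⟨z, -, hz⟩ := (dvd_prime_pow hh.prime m).1 (dvd_unit_mul hu hD)
  obtain ⟨u, hu⟩ := hz.symm
  obtain ⟨c, hc, hcu⟩ := Polynomial.isUnit_iff.1 u.isUnit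
  exact ⟨c, z, hc.ne_zero, by rw [← hu, ← hcu, mul_comm]⟩

/-- The conditions on `f` and `h`. -/
structure Good (l : ℕ) (f h : k[X]) : Prop where
  f0 : f ≠ 0
  deg : 2 * f.natDegree < h.natDegree
  odd : Odd h.natDegree
  irr : Irreducible h
  sep : h.Separable
  irrH : ∀ ζ : k, ζ ^ (4 * l + 2) = 1 → Irreducible (HH f h ζ)
  sepH : ∀ ζ : k, ζ ^ (4 * l + 2) = 1 → (HH f h ζ).Separable

variable {l : ℕ} {f h : k[X]}

theorem degf2 : (f ^ 2).natDegree = 2 * f.natDegree := natDegree_pow f 2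

theorem Good.degH (G : Good l f h) (ζ : k) : (HH f h ζ).natDegree = h.natDegree := by
  unfold HH
  apply natDegree_sub_eq_left_of_natDegree_lt
  refine lt_of_le_of_lt (natDegree_C_mul_le _ _) ?_
  rw [degf2]
  exact G.deg

theorem Good.hf (G : Good l f h) : IsCoprime h (f ^ 2) := by
  apply IsCoprime.pow_right
  rw [G.irr.coprime_iff_not_dvd]
  intro hd
  have := natDegree_le_of_dvd hd G.f0
  have := G.deg
  omega

theorem Good.coprime (G : Good l f h) (h2 : (2 : k) ≠ 0) : IsCoprime (aa l f h) (bb l f h) := by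
  have h1 : IsCoprime ((f ^ 2) ^ (2 * l + 1)) (h ^ (2 * l + 1)) := G.hf.symm.pow
  obtain ⟨u, v, huv⟩ := h1
  have e : (C (2⁻¹ : k)) * 2 = 1 := by
    rw [← C_ofNat, ← C_mul, inv_mul_cancel₀ h2, C_1]
  refine ⟨C 2⁻¹ * (u + v), C 2⁻¹ * (u - v), ?_⟩
  unfold aa bb
  have e2 : C (2⁻¹ : k) * (u + v) * ((f ^ 2) ^ (2 * l + 1) + h ^ (2 * l + 1)) +
      C 2⁻¹ * (u - v) * ((f ^ 2) ^ (2 * l + 1) - h ^ (2 * l + 1)) =
      (C (2⁻¹ : k) * 2) * (u * (f ^ 2) ^ (2 * l + 1) + v * h ^ (2 * l + 1)) := by ring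
  rw [e2, e, huv, one_mul]

theorem Good.h0 (G : Good l f h) : h ≠ 0 := G.irr.ne_zero

theorem Good.dlt (G : Good l f h) :
    ((f ^ 2) ^ (2 * l + 1)).natDegree < (h ^ (2 * l + 1)).natDegree := by
  have e1 : ((f ^ 2) ^ (2 * l + 1)).natDegree = (2 * l + 1) * (2 * f.natDegree) := by
    rw [natDegree_pow (f ^ 2), degf2]
  have e2 : (h ^ (2 * l + 1)).natDegree = (2 * l + 1) * h.natDegree := natDegree_pow h _
  rw [e1, e2]
  exact Nat.mul_lt_mul_of_pos_left G.deg (Nat.succ_pos _)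

theorem Good.dega (G : Good l f h) : (aa l f h).natDegree = (2 * l + 1) * h.natDegree := by
  unfold aa
  rw [natDegree_add_eq_right_of_natDegree_lt G.dlt, natDegree_pow]

theorem Good.degb (G : Good l f h) : (bb l f h).natDegree = (2 * l + 1) * h.natDegree := by
  unfold bb
  rw [natDegree_sub_eq_right_of_natDegree_lt G.dlt, natDegree_pow]

theorem Good.pos (G : Good l f h) : 0 < (2 * l + 1) * h.natDegree :=
  Nat.mul_pos (Nat.succ_pos _) G.odd.pos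

theorem Good.a0 (G : Good l f h) : aa l f h ≠ 0 := by
  intro e
  have := G.dega
  rw [e, natDegree_zero] at this
  exact G.pos.ne this

theorem Good.b0 (G : Good l f h) : bb l f h ≠ 0 := by
  intro e
  have := G.degb
  rw [e, natDegree_zero] at this
  exact G.pos.ne this

theorem sub_ab (l : ℕ) (f h : k[X]) : aa l f h - bb l f h = C 2 * h ^ (2 * l + 1) := by
  unfold aa bb
  rw [C_ofNat]
  ring

theorem Good.ab (G : Good l f h) (h2 : (2 : k) ≠ 0) : aa l f h ≠ bb l f h := by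
  rw [← sub_ne_zero, sub_ab]
  exact mul_ne_zero (C_ne_zero.2 h2) (pow_ne_zero _ G.h0)

theorem even_pow {ζ : k} (l : ℕ) (h : ζ ^ (2 * l + 1) = 1 ∨ ζ ^ (2 * l + 1) = -1) :
    ζ ^ (4 * l + 2) = 1 := by
  rw [show 4 * l + 2 = (2 * l + 1) * 2 by ring, pow_mul]
  rcases h with h | h <;> rw [h] <;> ring

theorem neg_root {z : k} (l : ℕ) (h : z ^ (2 * l + 1) = 1) : (-z) ^ (2 * l + 1) = -1 := by
  rw [Odd.neg_pow (odd_two_mul_add_one l), h]

theorem root_ne {ζ : k} {n : ℕ} (hn : n ≠ 0) (h : ζ ^ n = 1) : ζ ≠ 0 := by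
  rintro rfl
  rw [zero_pow hn] at h
  exact zero_ne_one h

end poly

section data

variable {k : Type} [Field k] (h2 : (2 : k) ≠ 0) {l : ℕ} {f h : k[X]} (G : Good l f h)

/-- The data of a point: `x = c0 p s0 ^ 2`, `x - a = c1 q s1 ^ 2`. -/
def Data (l : ℕ) (f h p q : k[X]) : Prop :=
  ∃ (x y s0 s1 : k[X]) (c0 c1 : k), c0 ≠ 0 ∧ c1 ≠ 0 ∧ s0 ≠ 0 ∧ s1 ≠ 0 ∧
    y ^ 2 = x * (x - aa l f h) * (x - bb l f h) ∧ x = C c0 * p * s0 ^ 2 ∧
    x - aa l f h = C c1 * q * s1 ^ 2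

include G in
/-- The point with `x = f ^ (2 m)`. -/
theorem data_R {i : k} (hi : i ^ 2 = -1) : Data l f h 1 h := by
  have hiC : (C i : k[X]) ^ 2 = -1 := by rw [← C_pow, hi, C_neg, C_1]
  refine ⟨(f ^ 2) ^ (2 * l + 1), C i * f ^ (2 * l + 1) * h ^ (2 * l + 1), f ^ (2 * l + 1), h ^ l,
    1, -1, one_ne_zero, neg_ne_zero.2 one_ne_zero, pow_ne_zero _ G.f0, pow_ne_zero _ G.h0, ?_, ?_,
    ?_⟩
  · unfold aa bb
    linear_combination ((f ^ 2) ^ (2 * l + 1) * (h ^ (2 * l + 1)) ^ 2) * hiC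
  · rw [C_1]; ring
  · unfold aa
    rw [C_neg, C_1]
    ring

variable {p : ℕ} [Fact p.Prime] [CharP k p] {ν : ℕ} (hQ : p ^ ν = 4 * l + 1) (hl : 0 < l)
  {i : k} (hi : i ^ 2 = -1)

include h2 G hQ hl hi in
/-- The points with `x = -z ^ m`, `z = ζ⁻¹ h - f ^ 2`. -/
theorem data_z {ζ : k} (hζ : ζ ^ (2 * l + 1) = 1 ∨ ζ ^ (2 * l + 1) = -1) :
    Data l f h (HH f h ζ) (if ζ ^ (2 * l + 1) = 1 then h else h * HH f h ζ) := by
  have hζ' := even_pow l hζ
  have hζ0 : ζ ≠ 0 := root_ne (by omega) hζ'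
  have hirr := G.irrH ζ hζ'
  set z : k[X] := C ζ⁻¹ * HH f h ζ with hz
  have hzh : z + f ^ 2 = C ζ⁻¹ * h := by
    rw [hz]
    unfold HH
    rw [mul_sub, ← mul_assoc, ← C_mul, inv_mul_cancel₀ hζ0, C_1]
    ring
  have hz0 : z ≠ 0 := mul_ne_zero (C_ne_zero.2 (inv_ne_zero hζ0)) hirr.ne_zero
  have hdz : z.natDegree = h.natDegree := by
    rw [hz, natDegree_C_mul (inv_ne_zero hζ0), G.degH]
  have h2P : (2 : k[X]) ≠ 0 := by
    rw [← C_ofNat]; exact C_ne_zero.2 h2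
  have hiP : (C i : k[X]) ^ 2 = -1 := by rw [← C_pow, hi, C_neg, C_1]
  have hw : h ^ (4 * l + 2) = (z + f ^ 2) ^ (4 * l + 2) := by
    rw [hzh, mul_pow, ← C_pow, inv_pow, hζ', inv_one, C_1, one_mul]
  have hpt := pt_eq hQ hw
  have hnz : z ^ (2 * l) - (f ^ 2) ^ (2 * l) ≠ 0 := by
    rw [sub_ne_zero]
    intro e
    have := congrArg natDegree e
    rw [natDegree_pow, natDegree_pow, degf2, hdz] at this
    have h5 := Nat.eq_of_mul_eq_mul_left (by omega) this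
    have := G.deg
    omega
  have hy0 : z ^ (l + 1) * f * (z ^ (2 * l) - (f ^ 2) ^ (2 * l)) ≠ 0 :=
    mul_ne_zero (mul_ne_zero (pow_ne_zero _ hz0) G.f0) hnz
  have hxa : -z ^ (2 * l + 1) - aa l f h ≠ 0 := by
    intro e
    apply pow_ne_zero 2 hy0
    rw [hpt]
    unfold aa at e
    rw [e]
    ring
  have e : -z ^ (2 * l + 1) = C (-ζ⁻¹) * HH f h ζ * (z ^ l) ^ 2 := by
    rw [C_neg]
    linear_combination (-(z ^ l) ^ 2) * hz
  rcases hζ with h1 | h1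
  · rw [if_pos h1]
    have e1 : h ^ (2 * l + 1) = (z + f ^ 2) ^ (2 * l + 1) := by
      rw [hzh, mul_pow, ← C_pow, inv_pow, h1, inv_one, C_1, one_mul]
    have e2 := plus_eq h2P hQ (f := f) (z := z) hiP
    have e3 : -z ^ (2 * l + 1) - aa l f h =
        C (-(2 * ζ⁻¹)) * h * (co (C i) f z l).1 ^ 2 := by
      unfold aa
      rw [C_neg, C_mul, C_ofNat, e1]
      linear_combination (-2 * (co (C i) f z l).1 ^ 2) * hzh - e2
    refine ⟨_, _, _, _, _, _, neg_ne_zero.2 (inv_ne_zero hζ0),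
      neg_ne_zero.2 (mul_ne_zero h2 (inv_ne_zero hζ0)), pow_ne_zero _ hz0, ?_, hpt, e, e3⟩
    rw [e3] at hxa
    intro h0
    apply hxa
    rw [h0]
    ring
  · have hne : ζ ^ (2 * l + 1) ≠ 1 := by
      rw [h1]
      intro e
      apply h2
      linear_combination -e
    rw [if_neg hne]
    have e1 : h ^ (2 * l + 1) = -(z + f ^ 2) ^ (2 * l + 1) := by
      rw [hzh, mul_pow, ← C_pow, inv_pow, h1, inv_neg, inv_one, C_neg, C_1]
      ring
    have e2 := minus_eq h2P hQ (f := f) (z := z) hiP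
    have e3 : -z ^ (2 * l + 1) - aa l f h =
        C (-(2 * ζ⁻¹ * ζ⁻¹)) * (h * HH f h ζ) * (co (C i) f z l).2 ^ 2 := by
      unfold aa
      rw [C_neg, C_mul, C_mul, C_ofNat, e1]
      linear_combination (-2 * z * (co (C i) f z l).2 ^ 2) * hzh - e2 -
        (2 * C ζ⁻¹ * h * (co (C i) f z l).2 ^ 2) * hz
    refine ⟨_, _, _, _, _, _, neg_ne_zero.2 (inv_ne_zero hζ0),
      neg_ne_zero.2 (mul_ne_zero (mul_ne_zero h2 (inv_ne_zero hζ0)) (inv_ne_zero hζ0)),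
      pow_ne_zero _ hz0, ?_, hpt, e, e3⟩
    rw [e3] at hxa
    intro h0
    apply hxa
    rw [h0]
    ring

end data

section pts

variable {k k' K F : Type} [Field k] [Field k'] [Algebra k k'] [Field K] [Algebra k[X] K]
    [Field F] [Algebra k'[X] F] [IsFractionRing k'[X] F] [Algebra K F] (hT : IsTower k k' K F)
    (h2 : (2 : k) ≠ 0) {l : ℕ} {f h : k[X]} (G : Good l f h)

include hT h2 G in
theorem pt_of {p q : k[X]} (hp : p ≠ 0) (hq : q ≠ 0) (hD : Data l f h p q) :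
    ∃ P : Pt (crv (algebraMap k[X] K (aa l f h)) (algebraMap k[X] K (bb l f h))) K,
      RepP (aa l f h) (bb l f h) F P p q := by
  obtain ⟨x, y, s0, s1, c0, c1, hc0, hc1, hs0, hs1, hxy, hx, hxa⟩ := hD
  refine exists_pt hT h2 G.a0 G.b0 (G.ab h2) (x := x) (y := y) hxy ?_ ?_
  · rw [if_neg, hx]
    · exact (emb_sq hT h2 hc0 hs0 _).symm
    · rw [hx]
      exact mul_ne_zero (mul_ne_zero (C_ne_zero.2 hc0) hp) (pow_ne_zero _ hs0)
  · rw [if_neg, hxa]
    · exact (emb_sq hT h2 hc1 hs1 _).symm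
    · refine sub_ne_zero.1 ?_
      rw [hxa]
      exact mul_ne_zero (mul_ne_zero (C_ne_zero.2 hc1) hq) (pow_ne_zero _ hs1)

include hT h2 G in
/-- The point with `x = f ^ (2 m)`. -/
theorem pt_R {i : k} (hi : i ^ 2 = -1) :
    ∃ P : Pt (crv (algebraMap k[X] K (aa l f h)) (algebraMap k[X] K (bb l f h))) K,
      RepP (aa l f h) (bb l f h) F P 1 h :=
  pt_of hT h2 G one_ne_zero G.h0 (data_R G hi)

variable {p : ℕ} [Fact p.Prime] [CharP k p] {ν : ℕ} (hQ : p ^ ν = 4 * l + 1) (hl : 0 < l)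
  {i : k} (hi : i ^ 2 = -1)

include hT h2 G hQ hl hi in
/-- The points with `x = -z ^ m`, `z = ζ⁻¹ h - f ^ 2`. -/
theorem pt_z {ζ : k} (hζ : ζ ^ (2 * l + 1) = 1 ∨ ζ ^ (2 * l + 1) = -1) :
    ∃ P : Pt (crv (algebraMap k[X] K (aa l f h)) (algebraMap k[X] K (bb l f h))) K,
      RepP (aa l f h) (bb l f h) F P (HH f h ζ)
        (if ζ ^ (2 * l + 1) = 1 then h else h * HH f h ζ) := by
  have h0 := (G.irrH ζ (even_pow l hζ)).ne_zero
  refine pt_of hT h2 G h0 ?_ (data_z h2 G hQ hl hi hζ)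
  split_ifs
  · exact G.h0
  · exact mul_ne_zero G.h0 h0

include hT h2 G hQ hl hi in
theorem enough {μ : k} (hμ : IsPrimitiveRoot μ (2 * l + 1)) :
    EnoughPoints K F (aa l f h) (bb l f h) := by
  intro A B D _ _ _ _ _ _ dA dB dD _
  set S := nthRootsFinset (2 * l + 1) (1 : k) with hS
  have hmem : ∀ z ∈ S, z ^ (2 * l + 1) = 1 := fun z hz =>
    (mem_nthRootsFinset (Nat.succ_pos _) 1).1 hz
  rw [fac_a hμ] at dA
  rw [fac_b hμ] at dB
  rw [sub_ab] at dD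
  obtain ⟨c1, x, h1, rfl⟩ := exp_of_dvd (fun z => HH f h (-z)) S
    (fun z hz => G.irrH _ (even_pow l (Or.inr (neg_root l (hmem z hz))))) A dA
  obtain ⟨c2, y, h3, rfl⟩ := exp_of_dvd (fun z => HH f h z) S
    (fun z hz => G.irrH _ (even_pow l (Or.inl (hmem z hz)))) B
    (dvd_unit_mul (neg_ne_zero.2 one_ne_zero) dB)
  obtain ⟨c3, e, h4, rfl⟩ := exp_pow G.irr h2 dD
  obtain ⟨R, hR⟩ := pt_R (K := K) (F := F) hT h2 G hi
  have hP : ∀ z : k, ∃ P : Pt (crv (algebraMap k[X] K (aa l f h)) (algebraMap k[X] K (bb l f h))) K,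
      z ∈ S → RepP (aa l f h) (bb l f h) F P (HH f h z) h := by
    intro z
    by_cases hz : z ∈ S
    · obtain ⟨P, hP⟩ := pt_z (K := K) (F := F) hT h2 G hQ hl hi (Or.inl (hmem z hz))
      rw [if_pos (hmem z hz)] at hP
      exact ⟨P, fun _ => hP⟩
    · exact ⟨0, fun h => absurd h hz⟩
  have hN : ∀ z : k, ∃ P : Pt (crv (algebraMap k[X] K (aa l f h)) (algebraMap k[X] K (bb l f h))) K,
      z ∈ S → RepP (aa l f h) (bb l f h) F P (HH f h (-z)) (h * HH f h (-z)) := by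
    intro z
    by_cases hz : z ∈ S
    · have hz' := neg_root l (hmem z hz)
      obtain ⟨P, hP⟩ := pt_z (K := K) (F := F) hT h2 G hQ hl hi (Or.inr hz')
      rw [if_neg] at hP
      · exact ⟨P, fun _ => hP⟩
      · rw [hz']
        intro e
        apply h2
        linear_combination -e
    · exact ⟨0, fun h => absurd h hz⟩
  choose P hP using hP
  choose N hN using hN
  have r1 := RepP.sum (F := F) hT h2 G.a0 G.b0 (G.ab h2) S (G := fun z => x z • N z)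
    (p := fun z => HH f h (-z) ^ x z) (q := fun z => (h * HH f h (-z)) ^ x z)
    (fun z hz => RepP.smul hT h2 G.a0 G.b0 (G.ab h2) (hN z hz) (x z))
  have r2 := RepP.sum (F := F) hT h2 G.a0 G.b0 (G.ab h2) S (G := fun z => y z • P z)
    (p := fun z => HH f h z ^ y z) (q := fun z => h ^ y z)
    (fun z hz => RepP.smul hT h2 G.a0 G.b0 (G.ab h2) (hP z hz) (y z))
  have r3 := RepP.smul hT h2 G.a0 G.b0 (G.ab h2) hR (e + ∑ z ∈ S, x z + ∑ z ∈ S, y z)
  have r := RepP.add hT h2 G.a0 G.b0 (G.ab h2) (RepP.add hT h2 G.a0 G.b0 (G.ab h2) r1 r2) r3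
  refine ⟨_, SqEq.trans ?_ r.1, SqEq.trans ?_ r.2⟩
  · have e1 : (C c1 * ∏ z ∈ S, HH f h (-z) ^ x z) * (C c2 * ∏ z ∈ S, HH f h z ^ y z) =
        C (c1 * c2) * ((∏ z ∈ S, HH f h (-z) ^ x z) * (∏ z ∈ S, HH f h z ^ y z) *
          1 ^ (e + ∑ z ∈ S, x z + ∑ z ∈ S, y z)) := by
      rw [C_mul, one_pow]
      ring
    have e0 := emb_C_mul (K := K) (F := F) hT h2 (mul_ne_zero h1 h3) ((∏ z ∈ S, HH f h (-z) ^ x z) *
      (∏ z ∈ S, HH f h z ^ y z) * 1 ^ (e + ∑ z ∈ S, x z + ∑ z ∈ S, y z))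
    rw [← e1] at e0
    exact e0
  · have e1 : (∏ z ∈ S, (h * HH f h (-z)) ^ x z) * (∏ z ∈ S, h ^ y z) *
          h ^ (e + ∑ z ∈ S, x z + ∑ z ∈ S, y z) =
        C 1 * ((∏ z ∈ S, HH f h (-z) ^ x z) * h ^ e) * (h ^ (∑ z ∈ S, x z + ∑ z ∈ S, y z)) ^ 2 := by
      simp_rw [mul_pow]
      rw [Finset.prod_mul_distrib, Finset.prod_pow_eq_pow_sum, Finset.prod_pow_eq_pow_sum, C_1,
        pow_add, pow_add]
      ring
    have e2 : (C c1 * ∏ z ∈ S, HH f h (-z) ^ x z) * (C c3 * h ^ e) =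
        C (c1 * c3) * ((∏ z ∈ S, HH f h (-z) ^ x z) * h ^ e) := by
      rw [C_mul]
      ring
    rw [e1, e2]
    exact (emb_C_mul hT h2 (mul_ne_zero h1 h4) _).trans
      (emb_sq hT h2 one_ne_zero (pow_ne_zero _ G.h0) _).symm

include hT h2 G hQ hl hi in
theorem tate {μ : k} (hμ : IsPrimitiveRoot μ (2 * l + 1)) : TateAtTwo (F := F) k'
    (crv (algebraMap k[X] K (aa l f h)) (algebraMap k[X] K (bb l f h))) := by
  have hmem : ∀ z ∈ nthRootsFinset (2 * l + 1) (1 : k), z ^ (2 * l + 1) = 1 := fun z hz =>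
    (mem_nthRootsFinset (Nat.succ_pos _) 1).1 hz
  refine criterion hT h2 G.a0 G.b0 (G.ab h2) (G.coprime h2) ?_ (Or.inl ?_)
    (enough hT h2 G hQ hl hi hμ)
  · intro π hπ hd
    rw [sub_ab, fac_a hμ, fac_b hμ] at hd
    rcases hπ.prime.dvd_or_dvd hd with hd | hd
    · rcases hπ.prime.dvd_or_dvd hd with hd | hd
      · obtain ⟨z, hz, hd⟩ := hπ.prime.exists_mem_finset_dvd hd
        exact (G.sepH _ (even_pow l (Or.inr (neg_root l (hmem z hz))))).of_dvd hd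
      · obtain ⟨z, hz, hd⟩ := hπ.prime.exists_mem_finset_dvd
          (dvd_unit_mul (neg_ne_zero.2 one_ne_zero) hd)
        exact (G.sepH _ (even_pow l (Or.inl (hmem z hz)))).of_dvd hd
    · exact G.sep.of_dvd (hπ.prime.dvd_of_dvd_pow (dvd_unit_mul h2 hd))
  · rw [G.dega, G.degb, max_self]
    exact (odd_two_mul_add_one l).mul G.odd

end pts

end Pool.Agent.TH958.T2
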